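import Mathlib

/-!
# Injectivity sets at the successor of a singular cardinal above a supercompact cardinal
-/

set_option autoImplicit false

namespace Pool.Agent.Results.MP_5f3b23_lc.SupercompactStationary

open Cardinal Set Filter Ordinal

universe u

/-- `U` is a `κ`-complete, fine and normal ultrafilter on `P_κ(θ)` (the set of all subsets of the
ordinal `θ` of size less than `κ`). -/
structure IsNormalFine (κ : Cardinal.{u}) (θ : Ordinal.{u}) (U : Ultrafilter (Set Ordinal.{u})) :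
    Prop where
  /-- `P_κ(θ)` has measure one -/
  conc : ∀ᶠ x in (U : Filter (Set Ordinal.{u})), x ⊆ Iio θ ∧ #x < Cardinal.lift.{u + 1} κ
  /-- intersections of fewer than `κ` sets of measure one have measure one -/
  complete : ∀ (ι : Type u) (X : ι → Set (Set Ordinal.{u})), #ι < κ → (∀ i, X i ∈ U) →
    (⋂ i, X i) ∈ U
  /-- every ordinal below `θ` belongs to almost every `x` -/
  fine : ∀ α < θ, ∀ᶠ x in (U : Filter (Set Ordinal.{u})), α ∈ x
  /-- every choice function is constant on a set of measure one -/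
  normal : ∀ f : Set Ordinal.{u} → Ordinal.{u}, (∀ᶠ x in (U : Filter (Set Ordinal.{u})), f x ∈ x) →
    ∃ α, ∀ᶠ x in (U : Filter (Set Ordinal.{u})), f x = α

/-- `κ` is `θ`-supercompact. -/
def Supercompact (κ : Cardinal.{u}) (θ : Ordinal.{u}) : Prop :=
  ∃ U : Ultrafilter (Set Ordinal.{u}), IsNormalFine κ θ U

/-- `B` is a cofinal subset of `α`: `B ⊆ α` and `sup B = α`. -/
def CofinalIn (B : Set Ordinal.{u}) (α : Ordinal.{u}) : Prop :=
  B ⊆ Iio α ∧ ∀ γ < α, ∃ β ∈ B, γ < β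

/-- The set `A(d)` for `d : λ⁺ × λ⁺ → λ`. -/
def A (lam : Cardinal.{u}) (d : Ordinal.{u} → Ordinal.{u} → Ordinal.{u}) : Set Ordinal.{u} :=
  {α | α < (Order.succ lam).ord ∧ ∀ B, CofinalIn B α →
    ∃ η < α, ∃ B' ⊆ B, CofinalIn B' α ∧ InjOn (fun β => d η β) B'}

/-- `C` is a closed unbounded subset of `μ`. -/
def IsClubIn (C : Set Ordinal.{u}) (μ : Ordinal.{u}) : Prop :=
  C ⊆ Iio μ ∧ (∀ β < μ, ∃ c ∈ C, β < c) ∧
    ∀ β < μ, β ≠ 0 → (∀ δ < β, ∃ c ∈ C, δ < c ∧ c < β) → β ∈ C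

/-- `S` is a stationary subset of `μ`. -/
def IsStationaryIn (S : Set Ordinal.{u}) (μ : Ordinal.{u}) : Prop :=
  S ⊆ Iio μ ∧ ∀ C, IsClubIn C μ → (S ∩ C).Nonempty

section

variable {κ : Cardinal.{u}} {θ : Ordinal.{u}} {U : Ultrafilter (Set Ordinal.{u})}

theorem ev_not {p : Set Ordinal.{u} → Prop} :
    (∀ᶠ x in (U : Filter (Set Ordinal.{u})), ¬ p x) ↔
      ¬ ∀ᶠ x in (U : Filter (Set Ordinal.{u})), p x := Ultrafilter.eventually_not

/-- diagonal intersections -/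
theorem diag (hU : IsNormalFine κ θ U) (Q : Ordinal.{u} → Set Ordinal.{u} → Prop)
    (h : ∀ α < θ, ∀ᶠ x in (U : Filter (Set Ordinal.{u})), Q α x) :
    ∀ᶠ x in (U : Filter (Set Ordinal.{u})), ∀ α ∈ x, Q α x := by
  classical
  by_contra hcon
  rw [← ev_not] at hcon
  let f : Set Ordinal.{u} → Ordinal.{u} := fun x =>
    if h : ∃ α ∈ x, ¬ Q α x then h.choose else 0
  have hf : ∀ᶠ x in (U : Filter (Set Ordinal.{u})), f x ∈ x ∧ ¬ Q (f x) x := by
    filter_upwards [hcon] with x hx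
    have hx' : ∃ α ∈ x, ¬ Q α x := by
      push Not at hx
      exact hx
    simp only [f, dif_pos hx']
    exact hx'.choose_spec
  obtain ⟨α, hα⟩ := hU.normal f (hf.mono fun x hx => hx.1)
  have h1 : ∀ᶠ x in (U : Filter (Set Ordinal.{u})), α < θ ∧ ¬ Q α x := by
    filter_upwards [hf, hα, hU.conc] with x h1 h2 h3
    rw [h2] at h1
    exact ⟨h3.1 h1.1, h1.2⟩
  obtain ⟨x0, hx0⟩ := h1.exists
  have h2 := h α hx0.1
  obtain ⟨x, hx1, hx2⟩ := (h1.and h2).exists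
  exact hx1.2 hx2

theorem all_small (hU : IsNormalFine κ θ U) {ι : Type u} (hι : #ι < κ)
    (R : ι → Set Ordinal.{u} → Prop) (h : ∀ i, ∀ᶠ x in (U : Filter (Set Ordinal.{u})), R i x) :
    ∀ᶠ x in (U : Filter (Set Ordinal.{u})), ∀ i, R i x := by
  have := hU.complete ι (fun i => {x | R i x}) hι h
  filter_upwards [this] with x hx i
  exact mem_iInter.1 hx i

theorem part (hU : IsNormalFine κ θ U) {ι : Type u} (hι : #ι < κ)
    (R : ι → Set Ordinal.{u} → Prop) (h : ∀ᶠ x in (U : Filter (Set Ordinal.{u})), ∃ i, R i x) :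
    ∃ i, ∀ᶠ x in (U : Filter (Set Ordinal.{u})), R i x := by
  by_contra hcon
  have h1 : ∀ i, ∀ᶠ x in (U : Filter (Set Ordinal.{u})), ¬ R i x :=
    fun i => ev_not.2 (fun h => hcon ⟨i, h⟩)
  obtain ⟨x, hx1, i, hi⟩ := ((all_small hU hι _ h1).and h).exists
  exact hx1 i hi

end

theorem exists_cofinal_fun (o : Ordinal.{u}) (ho : Order.IsSuccLimit o) :
    ∃ (ι : Type u) (c : ι → Ordinal.{u}), #ι = o.cof ∧ (∀ i, c i < o) ∧ ∀ ξ < o, ∃ i, ξ < c i := by
  obtain ⟨s, hs, hc⟩ := Order.exists_cof_eq (α := o.ToType)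
  refine ⟨s, fun i => (Ordinal.ToType.toOrd i.1).1, ?_, fun i => (Ordinal.ToType.toOrd i.1).2, ?_⟩
  · rw [hc, Ordinal.cof_toType]
  · intro ξ hξ
    have h1 : Order.succ ξ < o := ho.succ_lt hξ
    obtain ⟨b, hb, hle⟩ := hs (Ordinal.ToType.mk ⟨Order.succ ξ, h1⟩)
    refine ⟨⟨b, hb⟩, ?_⟩
    have h2 : (⟨Order.succ ξ, h1⟩ : Iio o) ≤ Ordinal.ToType.toOrd b := by
      have := Ordinal.ToType.mk.symm.monotone hle
      simpa using this
    exact lt_of_lt_of_le (Order.lt_succ ξ) h2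

section main

variable {κ lam : Cardinal.{u}} {U : Ultrafilter (Set Ordinal.{u})}

/-- Almost no `x` has a cofinal subset which is an image of `ι × (x ∩ λ)`. -/
theorem noCofinal (hlam : ℵ₀ ≤ lam) (hU : IsNormalFine κ (Order.succ lam).ord U) {ι : Type u}
    (hι : #ι < κ) (hκ : κ < lam) :
    ∀ᶠ x in (U : Filter (Set Ordinal.{u})), ¬ ∃ c : ι → Ordinal.{u} → Ordinal.{u},
      (∀ i, ∀ ζ ∈ x, ζ < lam.ord → c i ζ ∈ x) ∧
      ∀ γ ∈ x, ∃ i, ∃ ζ ∈ x, ζ < lam.ord ∧ γ ≤ c i ζ := by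
  classical
  by_contra hcon
  rw [← ev_not] at hcon
  have hcon' : ∀ᶠ x in (U : Filter (Set Ordinal.{u})), ∃ c : ι → Ordinal.{u} → Ordinal.{u},
      (∀ i, ∀ ζ ∈ x, ζ < lam.ord → c i ζ ∈ x) ∧
      ∀ γ ∈ x, ∃ i, ∃ ζ ∈ x, ζ < lam.ord ∧ γ ≤ c i ζ := by
    filter_upwards [hcon] with x hx
    exact not_not.1 hx
  have hle : lam.ord < (Order.succ lam).ord := Cardinal.ord_lt_ord.2 (Order.lt_succ lam)
  let c : Set Ordinal.{u} → ι → Ordinal.{u} → Ordinal.{u} := fun x =>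
    if h : ∃ c : ι → Ordinal.{u} → Ordinal.{u},
      (∀ i, ∀ ζ ∈ x, ζ < lam.ord → c i ζ ∈ x) ∧
      ∀ γ ∈ x, ∃ i, ∃ ζ ∈ x, ζ < lam.ord ∧ γ ≤ c i ζ then h.choose else fun _ _ => 0
  have hc : ∀ᶠ x in (U : Filter (Set Ordinal.{u})),
      (∀ i, ∀ ζ ∈ x, ζ < lam.ord → c x i ζ ∈ x) ∧
      ∀ γ ∈ x, ∃ i, ∃ ζ ∈ x, ζ < lam.ord ∧ γ ≤ c x i ζ := by
    filter_upwards [hcon'] with x hx
    simp only [c, dif_pos hx]
    exact hx.choose_spec
  have hg : ∀ i (ζ : Iio lam.ord), ∃ g : Ordinal.{u}, g < (Order.succ lam).ord ∧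
      ∀ᶠ x in (U : Filter (Set Ordinal.{u})), c x i ζ = g := by
    intro i ζ
    have h1 : ∀ᶠ x in (U : Filter (Set Ordinal.{u})), c x i ζ ∈ x := by
      filter_upwards [hc, hU.fine ζ.1 (ζ.2.trans hle)] with x h1 h2
      exact h1.1 i ζ h2 ζ.2
    obtain ⟨g, hg⟩ := hU.normal (fun x => c x i ζ) h1
    refine ⟨g, ?_, hg⟩
    obtain ⟨x, hx1, hx2, hx3⟩ := (h1.and (hg.and hU.conc)).exists
    rw [← hx2]
    exact hx3.1 hx1
  choose g hgl hg using hg
  -- the supremum of all values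
  have hreg : (Order.succ lam).IsRegular := Cardinal.isRegular_succ hlam
  let T : Type u := ι × lam.ord.ToType
  let G : T → Ordinal.{u} := fun t => g t.1 (Ordinal.ToType.toOrd t.2)
  have hT : #T < ((Order.succ lam).ord).cof := by
    rw [hreg.cof_ord, Order.lt_succ_iff]
    rw [Cardinal.mk_prod, Cardinal.lift_id, Cardinal.lift_id, Cardinal.mk_toType,
      Cardinal.card_ord]
    exact (mul_le_mul' (hι.le.trans hκ.le) le_rfl).trans (Cardinal.mul_eq_self hlam).le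
  have hsup : (⨆ t, G t) < (Order.succ lam).ord := Ordinal.iSup_lt_of_lt_cof hT (fun t => hgl _ _)
  have hlim : Order.IsSuccLimit (Order.succ lam).ord :=
    Cardinal.isSuccLimit_ord (hlam.trans (Order.le_succ lam))
  have hsup1 := hlim.succ_lt hsup
  have hdiag : ∀ᶠ x in (U : Filter (Set Ordinal.{u})), ∀ ζ ∈ x, ∀ hζ : ζ < lam.ord, ∀ i,
      c x i ζ = g i ⟨ζ, hζ⟩ := by
    apply diag hU
    intro ζ _
    by_cases hζ : ζ < lam.ord
    · have := all_small hU hι (fun i x => c x i ζ = g i ⟨ζ, hζ⟩) (fun i => hg i ⟨ζ, hζ⟩)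
      filter_upwards [this] with x hx _ i
      exact hx i
    · exact Eventually.of_forall fun x h => absurd h hζ
  obtain ⟨x, ⟨_, hx1⟩, hx2, hx3⟩ := (hc.and (hdiag.and (hU.fine _ hsup1))).exists
  obtain ⟨i, ζ, hζx, hζ, hle'⟩ := hx1 _ hx3
  rw [hx2 ζ hζx hζ i] at hle'
  have h4 : g i ⟨ζ, hζ⟩ ≤ ⨆ t, G t := by
    have := Ordinal.le_iSup G (i, Ordinal.ToType.mk ⟨ζ, hζ⟩)
    simpa [G] using this
  exact absurd (lt_of_lt_of_le (Order.lt_succ _) hle') (not_lt_of_ge h4)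

/-- For almost all `x` the functions `d η`, `η < sup x`, take few values on `x`. -/
theorem fewValues (hlam : lam.IsStrongLimit) (hlam' : ℵ₀ ≤ lam)
    (hU : IsNormalFine κ (Order.succ lam).ord U) {ι : Type u}
    (hι : #ι < κ) (cf : ι → Ordinal.{u}) (hcf : ∀ i, cf i < lam.ord)
    (hcf' : ∀ ξ < lam.ord, ∃ i, ξ < cf i)
    (d : Ordinal.{u} → Ordinal.{u} → Ordinal.{u})
    (hd : ∀ η β, η < (Order.succ lam).ord → β < (Order.succ lam).ord → d η β < lam.ord) :
    ∀ᶠ x in (U : Filter (Set Ordinal.{u})), ∀ η, (∃ β ∈ x, η < β) →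
      ∃ h : ι → Ordinal.{u} → Ordinal.{u}, ∀ β ∈ x, ∃ i, ∃ ζ ∈ x, ζ < lam.ord ∧
        d η β = h i ζ := by
  classical
  by_contra hcon
  rw [← ev_not] at hcon
  have hle : lam.ord < (Order.succ lam).ord := Cardinal.ord_lt_ord.2 (Order.lt_succ lam)
  have hcon' : ∀ᶠ x in (U : Filter (Set Ordinal.{u})), ∃ p : Ordinal.{u} × Ordinal.{u},
      p.2 ∈ x ∧ p.1 < p.2 ∧ ¬ ∃ h : ι → Ordinal.{u} → Ordinal.{u}, ∀ β ∈ x, ∃ i, ∃ ζ ∈ x,
        ζ < lam.ord ∧ d p.1 β = h i ζ := by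
    filter_upwards [hcon] with x hx
    by_contra hno
    apply hx
    rintro η ⟨β, hβ, hlt⟩
    by_contra hno2
    exact hno ⟨(η, β), hβ, hlt, hno2⟩
  let pr : Set Ordinal.{u} → Ordinal.{u} × Ordinal.{u} := fun x =>
    if h : ∃ p : Ordinal.{u} × Ordinal.{u},
      p.2 ∈ x ∧ p.1 < p.2 ∧ ¬ ∃ h : ι → Ordinal.{u} → Ordinal.{u}, ∀ β ∈ x, ∃ i, ∃ ζ ∈ x,
        ζ < lam.ord ∧ d p.1 β = h i ζ then h.choose else (0, 0)
  have hpr : ∀ᶠ x in (U : Filter (Set Ordinal.{u})), (pr x).2 ∈ x ∧ (pr x).1 < (pr x).2 ∧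
      ¬ ∃ h : ι → Ordinal.{u} → Ordinal.{u}, ∀ β ∈ x, ∃ i, ∃ ζ ∈ x,
        ζ < lam.ord ∧ d (pr x).1 β = h i ζ := by
    filter_upwards [hcon'] with x hx
    simp only [pr, dif_pos hx]
    exact hx.choose_spec
  obtain ⟨b, hb⟩ := hU.normal (fun x => (pr x).2) (hpr.mono fun x hx => hx.1)
  have hbl : b < (Order.succ lam).ord := by
    obtain ⟨x, hx1, hx2, hx3⟩ := (hpr.and (hb.and hU.conc)).exists
    have := hx3.1 hx1.1
    have hx2' : (pr x).2 = b := hx2
    rw [hx2'] at this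
    exact this
  -- a surjection of `λ` onto `b`
  have hbc : b.card ≤ lam := by
    rw [← Order.lt_succ_iff]
    exact Cardinal.lt_ord.1 hbl
  have hbc' : #(b.ToType) ≤ #(lam.ord.ToType) := by
    rw [Cardinal.mk_toType, Cardinal.mk_toType, Cardinal.card_ord]
    exact hbc
  obtain ⟨e⟩ := Cardinal.le_def _ _ |>.1 hbc'
  let g : Ordinal.{u} → Ordinal.{u} := fun ξ =>
    if h : ∃ t : b.ToType, (Ordinal.ToType.toOrd (e t)).1 = ξ
    then (Ordinal.ToType.toOrd h.choose).1 else 0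
  have hg : ∀ η < b, ∃ ξ < lam.ord, g ξ = η := by
    intro η hη
    let t : b.ToType := Ordinal.ToType.mk ⟨η, hη⟩
    refine ⟨(Ordinal.ToType.toOrd (e t)).1, (Ordinal.ToType.toOrd (e t)).2, ?_⟩
    have hex : ∃ t' : b.ToType, (Ordinal.ToType.toOrd (e t')).1 = (Ordinal.ToType.toOrd (e t)).1 :=
      ⟨t, rfl⟩
    simp only [g, dif_pos hex]
    have h1 := hex.choose_spec
    have h2 : e hex.choose = e t := by
      apply Ordinal.ToType.mk.symm.injective
      exact Subtype.ext h1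
    have h3 : hex.choose = t := e.injective h2
    rw [h3]
    simp [t]
  -- the index of the chosen `η`
  have hxi : ∀ᶠ x in (U : Filter (Set Ordinal.{u})), ∃ i, ∃ ξ < cf i, g ξ = (pr x).1 := by
    filter_upwards [hpr, hb] with x h1 h2
    have h2' : (pr x).2 = b := h2
    obtain ⟨ξ, hξ, hgξ⟩ := hg (pr x).1 (h2' ▸ h1.2.1)
    obtain ⟨i, hi⟩ := hcf' ξ hξ
    exact ⟨i, ξ, hi, hgξ⟩
  obtain ⟨i0, hi0⟩ := part hU hι _ hxi
  let xi : Set Ordinal.{u} → Ordinal.{u} := fun x =>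
    if h : ∃ ξ < cf i0, g ξ = (pr x).1 then h.choose else 0
  have hxi : ∀ᶠ x in (U : Filter (Set Ordinal.{u})), xi x < cf i0 ∧ g (xi x) = (pr x).1 := by
    filter_upwards [hi0] with x hx
    simp only [xi, dif_pos hx]
    exact hx.choose_spec
  -- bounds of the values
  have hpl : ∀ᶠ x in (U : Filter (Set Ordinal.{u})), (pr x).1 < (Order.succ lam).ord := by
    filter_upwards [hpr, hb] with x h1 h2
    have h2' : (pr x).2 = b := h2
    exact (h2' ▸ h1.2.1).trans hbl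
  have hj : ∀ β : Iio (Order.succ lam).ord, ∃ j, ∀ᶠ x in (U : Filter (Set Ordinal.{u})),
      d (pr x).1 β < cf j := by
    intro β
    apply part hU hι
    filter_upwards [hpl] with x hx
    exact hcf' _ (hd _ _ hx β.2)
  choose j hj using hj
  -- codes of bounded functions
  have hcode : ∀ k : ι, ∃ E : ((cf i0).ToType → (cf k).ToType) → Ordinal.{u},
      Function.Injective E ∧ ∀ f, E f < lam.ord := by
    intro k
    have hlt : #((cf i0).ToType → (cf k).ToType) < lam := by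
      rw [← Cardinal.power_def, Cardinal.mk_toType, Cardinal.mk_toType]
      have h1 : (cf i0).card < lam := Cardinal.lt_ord.1 (hcf i0)
      have h2 : (cf k).card < lam := Cardinal.lt_ord.1 (hcf k)
      have hm : max (max (cf i0).card (cf k).card) ℵ₀ < lam ∨ lam = ℵ₀ := by
        rcases hlam'.lt_or_eq with h | h
        · exact Or.inl (max_lt (max_lt h1 h2) h)
        · exact Or.inr h.symm
      rcases hm with hm | hm
      · set m := max (max (cf i0).card (cf k).card) ℵ₀ with hmd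
        have h3 : (cf k).card ^ (cf i0).card ≤ m ^ m :=
          (Cardinal.power_le_power_right ((le_max_right _ _).trans (le_max_left _ _))).trans
            (Cardinal.power_le_power_left (by
              intro h0
              have : ℵ₀ ≤ (0 : Cardinal.{u}) := h0 ▸ le_max_right _ _
              exact absurd this (not_le_of_gt Cardinal.aleph0_pos))
              ((le_max_left _ _).trans (le_max_left _ _)))
        refine h3.trans_lt ?_
        rw [Cardinal.power_self_eq (le_max_right _ _)]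
        exact hlam.isStrongPrelimit hm
      · rw [hm] at h1 h2 ⊢
        exact Cardinal.power_lt_aleph0 h2 h1
    have hle2 : #((cf i0).ToType → (cf k).ToType) ≤ #(lam.ord.ToType) := by
      rw [Cardinal.mk_toType, Cardinal.card_ord]
      exact hlt.le
    obtain ⟨E⟩ := Cardinal.le_def _ _ |>.1 hle2
    refine ⟨fun f => (Ordinal.ToType.toOrd (E f)).1, ?_, fun f => (Ordinal.ToType.toOrd (E f)).2⟩
    intro f f' hff
    apply E.injective
    apply Ordinal.ToType.mk.symm.injective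
    exact Subtype.ext hff
  choose E hE hEl using hcode
  -- some `x` is good
  have hne : ∀ᶠ x in (U : Filter (Set Ordinal.{u})), ∀ β ∈ x, ∀ hβ : β < (Order.succ lam).ord,
      d (pr x).1 β < cf (j ⟨β, hβ⟩) := by
    apply diag hU
    intro β hβ
    filter_upwards [hj ⟨β, hβ⟩] with x hx _
    exact hx
  -- the coded function of `β`
  let F : (β : Iio (Order.succ lam).ord) → (cf i0).ToType → Ordinal.{u} := fun β t =>
    d (g (Ordinal.ToType.toOrd t).1) β
  have hpos : ∀ β : Iio (Order.succ lam).ord, 0 < cf (j β) := by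
    intro β
    obtain ⟨x, hx⟩ := (hj β).exists
    exact lt_of_le_of_lt (by simp) hx
  let F' : (β : Iio (Order.succ lam).ord) → (cf i0).ToType → (cf (j β)).ToType := fun β t =>
    if h : F β t < cf (j β) then Ordinal.ToType.mk ⟨F β t, h⟩ else
      Ordinal.ToType.mk ⟨0, hpos β⟩
  let z : (β : Iio (Order.succ lam).ord) → Ordinal.{u} := fun β => E (j β) (F' β)
  have hz : ∀ β, z β < lam.ord := fun β => hEl _ _
  have hzx : ∀ᶠ x in (U : Filter (Set Ordinal.{u})), ∀ β ∈ x, ∀ hβ : β < (Order.succ lam).ord,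
      z ⟨β, hβ⟩ ∈ x := by
    apply diag hU
    intro β hβ
    filter_upwards [hU.fine (z ⟨β, hβ⟩) ((hz _).trans hle)] with x hx _
    exact hx
  obtain ⟨x, hx1, hx2, hx3, hx4, hx5⟩ :=
    (hpr.and (hxi.and (hne.and (hzx.and hU.conc)))).exists
  apply hx1.2.2
  -- decode at the index `xi x`
  let H : ι → Ordinal.{u} → Ordinal.{u} := fun k ζ =>
    if h : ∃ f : (cf i0).ToType → (cf k).ToType, E k f = ζ then
      (Ordinal.ToType.toOrd (h.choose (Ordinal.ToType.mk ⟨xi x, hx2.1⟩))).1 else 0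
  refine ⟨H, ?_⟩
  intro β hβx
  have hβ : β < (Order.succ lam).ord := hx5.1 hβx
  refine ⟨j ⟨β, hβ⟩, z ⟨β, hβ⟩, hx4 β hβx hβ, hz _, ?_⟩
  have hex : ∃ f : (cf i0).ToType → (cf (j ⟨β, hβ⟩)).ToType,
      E (j ⟨β, hβ⟩) f = z ⟨β, hβ⟩ := ⟨F' ⟨β, hβ⟩, rfl⟩
  simp only [H, dif_pos hex]
  have h1 : hex.choose = F' ⟨β, hβ⟩ := hE _ hex.choose_spec
  rw [h1]
  have h2 : F ⟨β, hβ⟩ (Ordinal.ToType.mk ⟨xi x, hx2.1⟩) = d (pr x).1 β := by
    have h0 : (Ordinal.ToType.toOrd (Ordinal.ToType.mk (⟨xi x, hx2.1⟩ : Iio (cf i0)))).1 = xi x := by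
      simp
    have h00 : F ⟨β, hβ⟩ (Ordinal.ToType.mk ⟨xi x, hx2.1⟩) = d (g (xi x)) β := by
      change d (g (Ordinal.ToType.toOrd (Ordinal.ToType.mk (⟨xi x, hx2.1⟩ : Iio (cf i0)))).1) β = _
      rw [h0]
    rw [h00, hx2.2]
  have h3 : F ⟨β, hβ⟩ (Ordinal.ToType.mk ⟨xi x, hx2.1⟩) < cf (j ⟨β, hβ⟩) := by
    rw [h2]
    exact hx3 β hβx hβ
  simp only [F', dif_pos h3]
  simp [h2]

end main

/-- Let `κ` be `λ⁺`-supercompact, where `λ > κ` is a strong limit cardinal of cofinality less than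
`κ` (so `λ` is singular).  Then for every `d : λ⁺ × λ⁺ → λ` the set of all `α < λ⁺` with
`cf(α) ≠ cf(λ)` which are not in `A(d)` is stationary in `λ⁺`. -/
theorem result (κ lam : Cardinal.{u}) (hκ : κ < lam) (hlam : lam.IsStrongLimit)
    (hcof : lam.ord.cof < κ) (hsc : Supercompact κ (Order.succ lam).ord)
    (d : Ordinal.{u} → Ordinal.{u} → Ordinal.{u})
    (hd : ∀ η β, η < (Order.succ lam).ord → β < (Order.succ lam).ord → d η β < lam.ord) :
    IsStationaryIn ({α | α < (Order.succ lam).ord ∧ α.cof ≠ lam.ord.cof} \ A lam d)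
      (Order.succ lam).ord := by
  classical
  obtain ⟨U, hU⟩ := hsc
  refine ⟨fun α hα => hα.1.1, ?_⟩
  intro C hC
  have hlam' : ℵ₀ ≤ lam := hlam.aleph0_le
  have hlim : Order.IsSuccLimit lam.ord := Cardinal.isSuccLimit_ord hlam'
  have hle : lam.ord < (Order.succ lam).ord := Cardinal.ord_lt_ord.2 (Order.lt_succ lam)
  have hlimΛ : Order.IsSuccLimit (Order.succ lam).ord :=
    Cardinal.isSuccLimit_ord (hlam'.trans (Order.le_succ lam))
  obtain ⟨ι, cf, hι, hcf, hcf'⟩ := exists_cofinal_fun lam.ord hlim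
  have hικ : #ι < κ := hι ▸ hcof
  have hpos : (0 : Ordinal.{u}) < lam.ord := hlim.bot_lt
  choose nx hnx1 hnx2 using hC.2.1
  have hnxx : ∀ᶠ x in (U : Filter (Set Ordinal.{u})), ∀ β ∈ x, ∀ hβ : β < (Order.succ lam).ord,
      nx β hβ ∈ x := by
    apply diag hU
    intro β hβ
    filter_upwards [hU.fine (nx β hβ) (hC.1 (hnx1 β hβ))] with x hx _
    exact hx
  have hreg : (Order.succ lam).IsRegular := Cardinal.isRegular_succ hlam'
  obtain ⟨x, hx1, hx2, hx3, hx4, hx5⟩ := ((noCofinal hlam' hU hικ hκ).and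
    ((fewValues hlam hlam' hU hικ cf hcf hcf' d hd).and
      (hnxx.and (hU.conc.and (hU.fine 0 (hpos.trans hle)))))).exists
  have hbdd : BddAbove x := ⟨(Order.succ lam).ord, fun y hy => (hx4.1 hy).le⟩
  have hsup : sSup x < (Order.succ lam).ord := by
    apply Ordinal.sSup_lt_of_lt_cof
    · rw [← Ordinal.lift_cof, hreg.cof_ord]
      exact hx4.2.trans (Cardinal.lift_lt.2 (hκ.trans (Order.lt_succ lam)))
    · exact fun i hi => hx4.1 hi
  have hup : ∀ γ < sSup x, ∃ β ∈ x, γ < β := fun γ hγ => exists_lt_of_lt_csSup ⟨0, hx5⟩ hγ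
  have hlt : ∀ β ∈ x, β < sSup x := by
    intro β hβ
    have h1 := hx3 β hβ (hx4.1 hβ)
    exact lt_of_lt_of_le (hnx2 β (hx4.1 hβ)) (le_csSup hbdd h1)
  refine ⟨sSup x, ⟨⟨hsup, ?_⟩, ?_⟩, ?_⟩
  · -- the cofinality of `sup x` is not that of `λ`
    intro hcc
    have hl : Order.IsSuccLimit (sSup x) := by
      rw [← Ordinal.one_lt_cof_iff, hcc, Ordinal.one_lt_cof_iff]
      exact hlim
    obtain ⟨ι', c', hι', hc', hc''⟩ := exists_cofinal_fun (sSup x) hl
    have hee : #ι = #ι' := by rw [hι, hι', hcc]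
    obtain ⟨e⟩ := Cardinal.eq.1 hee
    have hch : ∀ i, ∃ β ∈ x, c' (e i) < β := fun i => hup _ (hc' _)
    choose b hb1 hb2 using hch
    apply hx1
    refine ⟨fun i _ => b i, fun i _ _ _ => hb1 i, ?_⟩
    intro γ hγ
    obtain ⟨i', hi'⟩ := hc'' γ (hlt γ hγ)
    refine ⟨e.symm i', 0, hx5, hpos, ?_⟩
    have := hb2 (e.symm i')
    rw [e.apply_symm_apply] at this
    exact (hi'.trans this).le
  · -- `sup x` is not in `A(d)`
    rintro ⟨_, hA⟩
    obtain ⟨η, hη, B', hB', hBc, hinj⟩ := hA x ⟨fun β hβ => hlt β hβ, hup⟩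
    obtain ⟨h, hh⟩ := hx2 η (hup η hη)
    apply hx1
    let c : ι → Ordinal.{u} → Ordinal.{u} := fun i ζ =>
      if hex : ∃ β ∈ B', d η β = h i ζ then hex.choose else 0
    refine ⟨c, ?_, ?_⟩
    · intro i ζ _ _
      by_cases hex : ∃ β ∈ B', d η β = h i ζ
      · simp only [c, dif_pos hex]
        exact hB' hex.choose_spec.1
      · simp only [c, dif_neg hex]
        exact hx5
    · intro γ hγ
      obtain ⟨β, hβ, hγβ⟩ := hBc.2 γ (hlt γ hγ)
      obtain ⟨i, ζ, hζx, hζ, hdh⟩ := hh β (hB' hβ)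
      refine ⟨i, ζ, hζx, hζ, ?_⟩
      have hex : ∃ β ∈ B', d η β = h i ζ := ⟨β, hβ, hdh⟩
      simp only [c, dif_pos hex]
      have h1 : hex.choose = β := hinj hex.choose_spec.1 hβ (hex.choose_spec.2.trans hdh.symm)
      rw [h1]
      exact hγβ.le
  · -- `sup x` is in `C`
    apply hC.2.2 _ hsup
    · intro h0
      have := hlt 0 hx5
      rw [h0] at this
      exact lt_irrefl _ this
    · intro δ hδ
      obtain ⟨β, hβ, hδβ⟩ := hup δ hδ
      have h1 := hx3 β hβ (hx4.1 hβ)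
      exact ⟨nx β (hx4.1 hβ), hnx1 _ _, hδβ.trans (hnx2 _ _), hlt _ h1⟩

end Pool.Agent.Results.MP_5f3b23_lc.SupercompactStationary
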